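import Pool.Agent.W312.T3.Stm
import Pool.Agent.H673R2.TsTree

/-! Project T3 (helper312), part FRT: from a tree 3-spanner to a certificate. -/

set_option autoImplicit false

open Classical

namespace Pool.Agent.W639.T3

open Pool.Agent.W312.T3 Pool.Agent.H673R2.Ts

variable {V : Type} {T : SimpleGraph V}

/-- the next vertex on the path from `x` to `y` in the tree -/
noncomputable def nx (T : SimpleGraph V) (x y : V) : V :=
  if h : ∃ c, T.Adj x c ∧ T.dist c y + 1 = T.dist x y then h.choose else x

theorem nx_eq (hT : T.IsTree) {x y c : V} (h1 : T.Adj x c) (h2 : T.dist c y + 1 = T.dist x y) :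
    nx T x y = c := by
  have hex : ∃ c, T.Adj x c ∧ T.dist c y + 1 = T.dist x y := ⟨c, h1, h2⟩
  obtain ⟨h3, h4⟩ := hex.choose_spec
  unfold nx
  rw [dif_pos hex]
  by_contra hne
  have h5 := dist_next hT (x := y) h1.symm h3 (fun h => hne h.symm)
    (by rw [SimpleGraph.dist_comm, ← h2, SimpleGraph.dist_comm])
  rw [SimpleGraph.dist_comm (u := y), SimpleGraph.dist_comm (u := y)] at h5
  omega

theorem dist_one {x y : V} (h : T.Adj x y) : T.dist x y = 1 := SimpleGraph.dist_eq_one_iff_adj.2 h

theorem dist_two (hT : T.IsTree) {x a y : V} (h1 : T.Adj x a) (h2 : T.Adj a y) (h : x ≠ y) :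
    T.dist x y = 2 := by
  have b : T.dist x a = T.dist x x + 1 := by rw [SimpleGraph.dist_self, dist_one h1]
  have := dist_next hT h1 h2 h b
  rw [dist_one h1] at this
  exact this

theorem dist_three (hT : T.IsTree) {x a b y : V} (h1 : T.Adj x a) (h2 : T.Adj a b) (h3 : T.Adj b y)
    (hxb : x ≠ b) (hay : a ≠ y) : T.dist x y = 3 := by
  have h4 := dist_two hT h1 h2 hxb
  have := dist_next hT (x := x) h2 h3 hay (by rw [h4, dist_one h1])
  omega

theorem nx_adj (hT : T.IsTree) {x y : V} (h : T.Adj x y) : nx T x y = y :=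
  nx_eq hT h (by rw [SimpleGraph.dist_self, dist_one h])

theorem nx_two (hT : T.IsTree) {x a y : V} (h1 : T.Adj x a) (h2 : T.Adj a y) (h : x ≠ y) :
    nx T x y = a :=
  nx_eq hT h1 (by rw [dist_two hT h1 h2 h, dist_one h2])

theorem nx_three (hT : T.IsTree) {x a b y : V} (h1 : T.Adj x a) (h2 : T.Adj a b) (h3 : T.Adj b y)
    (hxb : x ≠ b) (hay : a ≠ y) : nx T x y = a :=
  nx_eq hT h1 (by rw [dist_three hT h1 h2 h3 hxb hay, dist_two hT h2 h3 hay])

/-- the three kinds of paths -/
theorem cases3 (hT : T.IsTree) {x y : V} (hne : x ≠ y) (h : T.dist x y ≤ 3) :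
    T.Adj x y ∨ (∃ z, T.Adj x z ∧ T.Adj z y) ∨
      ∃ z w, T.Adj x z ∧ T.Adj z w ∧ T.Adj w y ∧ x ≠ w ∧ z ≠ y := by
  rcases path_cases hT.connected hne h with h1 | h1 | ⟨z, w, h1, h2, h3⟩
  · exact Or.inl h1
  · exact Or.inr (Or.inl h1)
  · by_cases hzy : z = y
    · exact Or.inl (hzy ▸ h1)
    · by_cases hxw : x = w
      · exact Or.inl (hxw ▸ h3)
      · exact Or.inr (Or.inr ⟨z, w, h1, h2, h3, hxw, hzy⟩)

theorem exists_adj (hT : T.IsTree) {x y : V} (hne : x ≠ y) : ∃ c, T.Adj x c := by
  obtain ⟨p⟩ := hT.connected.preconnected x y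
  cases p with
  | nil => exact absurd rfl hne
  | cons h _ => exact ⟨_, h⟩

/-- the centre of a set of small diameter -/
theorem centre [Nontrivial V] (hT : T.IsTree) (S : Set V)
    (hS : ∀ x ∈ S, ∀ y ∈ S, T.dist x y ≤ 3) :
    ∃ p q, T.Adj p q ∧ ∀ z ∈ S, z = p ∨ z = q ∨ T.Adj z p ∨ T.Adj z q := by
  by_cases h3 : ∃ x ∈ S, ∃ y ∈ S, ∃ z w, T.Adj x z ∧ T.Adj z w ∧ T.Adj w y ∧ x ≠ w ∧ z ≠ y
  · obtain ⟨x, hx, y, hy, p, q, h1, h2, h4, h5, h6⟩ := h3
    refine ⟨p, q, h2, fun z hz => ?_⟩
    by_cases hzp : z = p
    · exact Or.inl hzp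
    · by_cases hzq : z = q
      · exact Or.inr (Or.inl hzq)
      · exact Or.inr (Or.inr (adj_mid hT h1 h2 h4 h5 h6 hzp hzq (hS z hz x hx) (hS z hz y hy)))
  · have hS2 : ∀ x ∈ S, ∀ y ∈ S, T.dist x y ≤ 2 := by
      intro x hx y hy
      by_cases hne : x = y
      · rw [hne, SimpleGraph.dist_self]
        omega
      · rcases cases3 hT hne (hS x hx y hy) with h | ⟨z, h, h'⟩ | ⟨z, w, h⟩
        · rw [dist_one h]
          omega
        · rw [dist_two hT h h' hne]
        · exact absurd ⟨x, hx, y, hy, z, w, h⟩ h3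
    by_cases h2 : ∃ x ∈ S, ∃ y ∈ S, x ≠ y ∧ ∃ c, T.Adj x c ∧ T.Adj c y
    · obtain ⟨x, hx, y, hy, hne, c, h4, h5⟩ := h2
      refine ⟨c, x, h4.symm, fun z hz => ?_⟩
      by_contra hcon
      push Not at hcon
      obtain ⟨k1, k2, k3, k4⟩ := hcon
      have k5 : T.dist z c ≠ 0 := fun h0 => k1 (eq_of_dist_eq_zero hT h0)
      have k6 : T.dist z c ≠ 1 := fun h0 => k3 (SimpleGraph.dist_eq_one_iff_adj.1 h0)
      have k7 := hS2 z hz x hx
      have k8 := hS2 z hz y hy
      rcases hT.dist_eq_dist_add_one_of_adj z h4 with h | h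
      · omega
      · have := dist_next hT (x := z) h4 h5 hne h
        omega
    · by_cases h1 : ∃ x ∈ S, ∃ y ∈ S, x ≠ y
      · obtain ⟨x, hx, y, hy, hne⟩ := h1
        have hall : ∀ x ∈ S, ∀ y ∈ S, x ≠ y → T.Adj x y := by
          intro x hx y hy hne
          rcases cases3 hT hne (hS x hx y hy) with h | ⟨z, h⟩ | ⟨z, w, h⟩
          · exact h
          · exact absurd ⟨x, hx, y, hy, hne, z, h⟩ h2
          · exact absurd ⟨x, hx, y, hy, z, w, h⟩ h3
        refine ⟨x, y, hall x hx y hy hne, fun z hz => ?_⟩
        by_cases hzx : z = x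
        · exact Or.inl hzx
        · exact Or.inr (Or.inr (Or.inl (hall z hz x hx hzx)))
      · push Not at h1
        have hx : ∃ x, ∀ z ∈ S, z = x := by
          by_cases hne : S.Nonempty
          · obtain ⟨x, hx⟩ := hne
            exact ⟨x, fun z hz => h1 z hz x hx⟩
          · obtain ⟨x, -⟩ := exists_pair_ne V
            exact ⟨x, fun z hz => absurd ⟨z, hz⟩ hne⟩
        obtain ⟨x, hx⟩ := hx
        obtain ⟨y, hy⟩ := exists_ne x
        obtain ⟨c, hc⟩ := exists_adj hT hy.symm
        exact ⟨x, c, hc, fun z hz => Or.inl (hx z hz)⟩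

theorem frt : S_FRT := by
  intro V _ _ _ G T hG hTS
  obtain ⟨hle, hT, hd⟩ := hTS
  have hd3 : ∀ x y, G.Adj x y → T.dist x y ≤ 3 := by
    intro x y hxy
    have := hd x y
    rw [SimpleGraph.dist_eq_one_iff_adj.2 hxy] at this
    exact this
  refine ⟨nx T, ?_, ?_, ?_⟩
  · intro S hS
    have hSd : ∀ x ∈ S, ∀ y ∈ S, T.dist x y ≤ 3 := by
      intro x hx y hy
      by_cases hne : x = y
      · rw [hne, SimpleGraph.dist_self]
        omega
      · exact hd3 x y (hS hx hy hne)
    obtain ⟨p, q, hpq, hc⟩ := centre hT S hSd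
    set s : Set V := {z | T.dist z q < T.dist z p} with hs
    have hqs : q ∈ s := by
      show T.dist q q < T.dist q p
      rw [SimpleGraph.dist_self, dist_one hpq.symm]
      omega
    have hps : p ∉ s := by
      show ¬ T.dist p q < T.dist p p
      rw [SimpleGraph.dist_self]
      omega
    have hsp : side p q s p = p := by unfold side; rw [if_neg hps]
    have hsq : side p q s q = q := by unfold side; rw [if_pos hqs]
    have hadj : ∀ z ∈ S, z ≠ side p q s z → T.Adj z (side p q s z) := by
      intro z hz hne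
      by_cases hzs : z ∈ s
      · have hside : side p q s z = q := by unfold side; rw [if_pos hzs]
        rw [hside] at hne ⊢
        have hlt : T.dist z q < T.dist z p := hzs
        rcases hc z hz with h | h | h | h
        · rw [h, SimpleGraph.dist_self] at hlt
          omega
        · exact absurd h hne
        · rw [dist_one h] at hlt
          exact absurd (eq_of_dist_eq_zero hT (by omega)) hne
        · exact h
      · have hside : side p q s z = p := by unfold side; rw [if_neg hzs]
        rw [hside] at hne ⊢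
        have hlt : ¬ T.dist z q < T.dist z p := hzs
        rcases hc z hz with h | h | h | h
        · exact absurd h hne
        · rw [h] at hzs
          exact absurd hqs hzs
        · exact h
        · rw [dist_one h] at hlt
          have h0 : T.dist z p ≠ 0 := fun h0 => hne (eq_of_dist_eq_zero hT h0)
          exact SimpleGraph.dist_eq_one_iff_adj.1 (by omega)
    have hside2 : ∀ z, side p q s z = p ∨ side p q s z = q := by
      intro z
      unfold side
      split_ifs
      · exact Or.inr rfl
      · exact Or.inl rfl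
    have hss : ∀ z, side p q s (side p q s z) = side p q s z := by
      intro z
      rcases hside2 z with h | h <;> rw [h] <;> assumption
    have hab : ∀ x y, side p q s x ≠ side p q s y → T.Adj (side p q s x) (side p q s y) := by
      intro x y hne
      rcases hside2 x with h | h <;> rcases hside2 y with h' | h' <;> rw [h, h'] at hne ⊢
      · exact absurd rfl hne
      · exact hpq
      · exact hpq.symm
      · exact absurd rfl hne
    refine ⟨p, q, s, hle hpq, hqs, hps, fun x hx hne => hle (hadj x hx hne), ?_⟩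
    intro x hx y hy hxy
    unfold gg
    by_cases hxs : x ≠ side p q s x
    · rw [if_pos hxs]
      have h1 := hadj x hx hxs
      by_cases hsame : side p q s x = side p q s y
      · by_cases hys : y = side p q s y
        · have h2 : side p q s x = y := by rw [hsame, ← hys]
          rw [h2] at h1 ⊢
          exact nx_adj hT h1
        · have h2 := hadj y hy hys
          rw [← hsame] at h2
          exact nx_two hT h1 h2.symm hxy
      · have h2 := hab x y hsame
        have hxb : x ≠ side p q s y := by
          intro h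
          apply hsame
          have := hss y
          rw [← h] at this
          rw [this]
          exact h
        by_cases hys : y = side p q s y
        · rw [← hys] at h2
          exact nx_two hT h1 h2 hxy
        · have h3 := hadj y hy hys
          refine nx_three hT h1 h2 h3.symm hxb ?_
          intro h
          apply hsame
          have := hss x
          rw [h] at this
          exact h.trans this.symm
    · rw [if_neg hxs]
      push Not at hxs
      by_cases hyx : side p q s y = x
      · rw [if_pos hyx]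
        have h2 := hadj y hy (by rw [hyx]; exact hxy.symm)
        rw [hyx] at h2
        exact nx_adj hT h2.symm
      · rw [if_neg hyx]
        have h2 : T.Adj x (side p q s y) := by
          have := hab x y (by rw [← hxs]; exact fun h => hyx h.symm)
          rwa [← hxs] at this
        by_cases hys : y = side p q s y
        · rw [← hys] at h2 ⊢
          exact nx_adj hT h2
        · exact nx_two hT h2 (hadj y hy hys).symm hxy
  · intro x _ y _ hxy _
    rcases cases3 hT hxy.ne (hd3 x y hxy) with h | ⟨z, h, h'⟩ | ⟨z, w, h1, h2, h3, h4, h5⟩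
    · rw [nx_adj hT h]
      exact ⟨nx_adj hT h, nx_adj hT h.symm⟩
    · rw [nx_two hT h h' hxy.ne]
      exact ⟨nx_adj hT h, nx_adj hT h.symm⟩
    · rw [nx_three hT h1 h2 h3 h4 h5]
      exact ⟨nx_adj hT h1, nx_adj hT h1.symm⟩
  · intro x _ y _ hxy hne hne2 _ _
    rcases cases3 hT hxy.ne (hd3 x y hxy) with h | ⟨z, h, h'⟩ | ⟨z, w, h1, h2, h3, h4, h5⟩
    · exact absurd (nx_adj hT h) hne
    · rw [nx_two hT h h' hxy.ne, nx_two hT h'.symm h.symm hxy.ne.symm] at hne2
      exact absurd rfl hne2
    · rw [nx_three hT h1 h2 h3 h4 h5, nx_three hT h3.symm h2.symm h1.symm h5.symm h4.symm]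
      exact nx_adj hT h2

end Pool.Agent.W639.T3
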