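import Pool.Agent.W312.T3.Stm

/-! Project T3 (helper312), part VAL: the rules preserve validity. -/

set_option autoImplicit false

open Classical

namespace Pool.Agent.W639.T3

open Pool.Agent.W312.T3

theorem prof_mono {V : Type} [LinearOrder V] {G : SimpleGraph V} {f : V → V → V} {S S' : Set V}
    {p q : V} {s : Set V} (h : IsProf G f S p q s) (hS : S' ⊆ S) : IsProf G f S' p q s :=
  ⟨h.1, h.2.1, h.2.2.1, fun x hx => h.2.2.2.1 x (hS hx),
    fun x hx y hy => h.2.2.2.2 x (hS hx) y (hS hy)⟩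

theorem edge_mono {V : Type} [LinearOrder V] {G : SimpleGraph V} {f : V → V → V} {S S' : Set V}
    (h : EdgeOk G f S) (hS : S' ⊆ S) : EdgeOk G f S' :=
  ⟨fun x hx y hy ha hf => h.1 x (hS hx) y (hS hy) ha (hS hf),
    fun x hx y hy ha h1 h2 h3 h4 => h.2 x (hS hx) y (hS hy) ha h1 h2 (hS h3) (hS h4)⟩

/-- no valid facts exclude a star which occurs -/
theorem star_contra {V : Type} [LinearOrder V] {G : SimpleGraph V} (hP : S_PRF)
    {F : V → V → V → V → V → Prop} (hVal : Val G F) {f : V → V → V} {k p q p' q' : V} {s s' : Set V}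
    (hpc : PC G k f) (h : IsProf G f (Q G k) p q s) (hu : ∀ u ∈ Q G k, u ≠ q → u ∉ s)
    (h' : IsProf G f (K G k) p' q' s') (hNF : NF G F k p) : False := by
  obtain ⟨hA, -, -, hD, -⟩ := hP V G
  rcases hD f k p q s p' q' s' h hu (prof_mono h' fun x hx => Or.inr hx) with ⟨h1, h2⟩ | ⟨h1, h2⟩
  · obtain ⟨u, hu1, hu2⟩ := hNF p' q' h'.1 h1
    have h3 := hVal k p' q' q' u h'.1 hu2 f s' hpc h' h'.2.1
    rcases hu1 with ⟨h4, h5⟩ | rfl
    · exact h2 u h4 h5 h3
    · exact h'.2.2.1 h3
  · have h'' := hA f (K G k) p' q' s' h'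
    obtain ⟨u, hu1, hu2⟩ := hNF q' p' h''.1 h1
    have h3 := hVal k q' p' p' u h''.1 hu2 f s'ᶜ hpc h'' h''.2.1
    rcases hu1 with ⟨h4, h5⟩ | rfl
    · exact h3 (h2 u h4 h5)
    · exact h''.2.2.1 h3

theorem val (hS : S_STR) (hP : S_PRF) : S_VAL := by
  intro V _ _ G hPEO F hVal j p q a b hadj hstep f s hpc hprof has
  obtain ⟨-, -, -, -, -, hSub, -, -⟩ := hS V G hPEO
  obtain ⟨hA, hB, -, -, -⟩ := hP V G
  rcases hstep with rfl | rfl | h | h | ⟨c, hac, harc⟩
  · exact has
  · exact hprof.2.1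
  · exact hVal j p q q b hadj h f s hpc hprof hprof.2.1
  · exact absurd (hVal j p q a p hadj h f s hpc hprof has) hprof.2.2.1
  · have hc : c ∈ s := hVal j p q a c hadj hac f s hpc hprof has
    rcases harc with ⟨rfl, h1, h2, h3, h4⟩ | ⟨rfl, h1, h2, h3, h4⟩ |
      ⟨k, hk, h1, h2, h3, h4, h5, h6, h7⟩
    · by_contra hb
      have hs : side p c s b = p := by unfold side; rw [if_neg hb]
      exact h4 (by simpa [hs] using hprof.2.2.2.1 b h1 (by rw [hs]; exact h2))
    · exfalso
      have hs : side b q s c = q := by unfold side; rw [if_pos hc]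
      exact h4 (by simpa [hs] using hprof.2.2.2.1 c h1 (by rw [hs]; exact h3))
    · obtain ⟨hDD, hHH, hQK⟩ := hSub j k hk
      have hkk : k ∈ D G k := Relation.ReflTransGen.refl
      have hpck : PC G k f := ⟨fun m hm => hpc.1 m (hDD hm), edge_mono hpc.2 hHH⟩
      obtain ⟨p', q', s', hprof'⟩ := hpc.1 k (hDD hkk)
      have hprofQ := prof_mono hprof hQK
      have hprofQ' : IsProf G f (Q G k) p' q' s' := prof_mono hprof' fun x hx => Or.inr hx
      by_cases hx : ∃ x ∈ Q G k, x ∉ s ∧ x ≠ p
      · by_cases hy : ∃ y ∈ Q G k, y ∈ s ∧ y ≠ q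
        · obtain ⟨x, hxQ, hxs, hxp⟩ := hx
          obtain ⟨y, hyQ, hys, hyq⟩ := hy
          have key : ∃ s'', IsProf G f (K G k) p q s'' ∧ ∀ z ∈ Q G k, z ∈ s'' ↔ z ∈ s := by
            rcases hB f (Q G k) p q s p' q' s' x y hprofQ hprofQ' hxQ hyQ hxs hxp hys hyq with
              ⟨rfl, rfl, h8⟩ | ⟨rfl, rfl, h8⟩
            · exact ⟨s', hprof', h8⟩
            · refine ⟨s'ᶜ, hA _ _ _ _ _ hprof', fun z hz => ?_⟩
              rw [Set.mem_compl_iff, h8 z hz, not_not]
          obtain ⟨s'', h8, h9⟩ := key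
          have hcs : c ∈ s'' := by
            rcases h1 with h | rfl
            · exact (h9 c h).2 hc
            · exact h8.2.1
          have hbs := hVal k p q c b hadj h5 f s'' hpck h8 hcs
          rcases h3 with h | rfl
          · exact (h9 b h).1 hbs
          · exact absurd hbs h8.2.2.1
        · exfalso
          push Not at hy
          have hcq : c = q := by
            rcases h1 with h | h
            · exact hy c h hc
            · exact h
          refine star_contra hP hVal hpck hprofQ (fun u hu huq hus => huq (hy u hu hus)) hprof' (h7 hcq)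
      · push Not at hx
        by_cases hbp : b = p
        · exfalso
          refine star_contra hP hVal hpck (hA _ _ _ _ _ hprofQ) (fun u hu hup hus => ?_) hprof' (h6 hbp)
          exact hup (hx u hu hus)
        · by_contra hbs
          rcases h3 with h | h
          · exact hbp (hx b h hbs)
          · exact hbp h

end Pool.Agent.W639.T3
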